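import Pool.Agent.H44.KWAssoc

open MeasureTheory ProbabilityTheory Pool.Agent.H44.KW

namespace Pool.Agent.Results.MP_d464c7_pr.NotAssoc

/-- A random vector is associated if bounded nondecreasing (measurable) functions of it have
nonnegative covariance. -/
def Associated {Ω : Type} [MeasurableSpace Ω] (μ : Measure Ω) {m : ℕ} (X : Ω → Fin m → ℝ) : Prop :=
  ∀ f g : (Fin m → ℝ) → ℝ, Measurable f → Measurable g → Monotone f → Monotone g →
    (∃ C, ∀ x, |f x| ≤ C) → (∃ C, ∀ x, |g x| ≤ C) →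
    0 ≤ covariance (fun ω => f (X ω)) (fun ω => g (X ω)) μ

/-- `V = sort (W₁ + S, W₂, …, W_k)`. -/
noncomputable def V {k : ℕ} (w : Fin k → ℝ) (s : ℝ) : Fin k → ℝ :=
  sortVec fun i => if (i : ℕ) = 0 then w i + s else w i

/-- The family `(V₁, V₂ - V₁, …, V_k - V₁, -T)`, for `k + 1` servers. -/
noncomputable def family {k : ℕ} (w : Fin (k + 1) → ℝ) (s t : ℝ) : Fin (k + 2) → ℝ :=
  Fin.snoc (α := fun _ => ℝ) (fun i => if i = 0 then V w s 0 else V w s i - V w s 0) (-t)

theorem result : ∃ (k : ℕ) (μS μT : Measure ℝ), 2 ≤ k + 1 ∧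
    IsProbabilityMeasure μS ∧ IsProbabilityMeasure μT ∧
    (∀ᵐ s ∂μS, 0 < s) ∧ (∀ᵐ t ∂μT, 0 < t) ∧ MemLp id 2 μS ∧ MemLp id 2 μT ∧
    (∫ s, s ∂μS) / ((k + 1 : ℕ) * ∫ t, t ∂μT) < 1 ∧
    (∃ π : Measure (Fin (k + 1) → ℝ), IsStationary μS μT π) ∧
    ∀ π : Measure (Fin (k + 1) → ℝ), IsStationary μS μT π →
      ¬ Associated (π.prod (μS.prod μT)) fun p => family p.1 p.2.1 p.2.2 := by
  refine ⟨1, muS, muT, le_rfl, inferInstance, inferInstance,
    ae_coin (by norm_num) (by norm_num), ae_coin (by norm_num) (by norm_num),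
    memLp_coin _ _, memLp_coin _ _, ?_, exists_stationary, fun π hπ h => ?_⟩
  · unfold muS muT
    rw [integral_coin, integral_coin]
    norm_num
  have hP := hπ.1
  have f0 : ∀ (w : Fin 2 → ℝ) (s t : ℝ), family w s t 0 = min (w 0 + s) (w 1) := by
    intro w s t
    have : family w s t 0 = V w s 0 := rfl
    rw [this, V, sortVec_two]
    simp
  have f1 : ∀ (w : Fin 2 → ℝ) (s t : ℝ),
      family w s t 1 = max (w 0 + s) (w 1) - min (w 0 + s) (w 1) := by
    intro w s t
    have : family w s t 1 = V w s 1 - V w s 0 := rfl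
    rw [this, V, sortVec_two]
    simp
  have key := h (fun x => if 0 < x 0 then 1 else 0) (fun x => if 2 ≤ x 1 then 1 else 0)
    (Measurable.ite (measurableSet_lt measurable_const (measurable_pi_apply 0))
      measurable_const measurable_const)
    (Measurable.ite (measurableSet_le measurable_const (measurable_pi_apply 1))
      measurable_const measurable_const)
    (fun x y hxy => by
      have := hxy 0
      dsimp only
      split_ifs <;> first | rfl | linarith)
    (fun x y hxy => by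
      have := hxy 1
      dsimp only
      split_ifs <;> first | rfl | linarith)
    ⟨1, fun x => by split_ifs <;> norm_num⟩ ⟨1, fun x => by split_ifs <;> norm_num⟩
  simp only [f0, f1] at key
  have mA : Measurable fun p : (Fin 2 → ℝ) × ℝ × ℝ =>
      if 0 < min (p.1 0 + p.2.1) (p.1 1) then (1 : ℝ) else 0 :=
    Measurable.ite (measurableSet_lt measurable_const (by fun_prop))
      measurable_const measurable_const
  have mB : Measurable fun p : (Fin 2 → ℝ) × ℝ × ℝ =>
      if 2 ≤ max (p.1 0 + p.2.1) (p.1 1) - min (p.1 0 + p.2.1) (p.1 1) then (1 : ℝ) else 0 :=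
    Measurable.ite (measurableSet_le measurable_const (by fun_prop))
      measurable_const measurable_const
  have bA : ∀ p : (Fin 2 → ℝ) × ℝ × ℝ,
      |if 0 < min (p.1 0 + p.2.1) (p.1 1) then (1 : ℝ) else 0| ≤ 1 := fun p => by
    split_ifs <;> norm_num
  have bB : ∀ p : (Fin 2 → ℝ) × ℝ × ℝ,
      |if 2 ≤ max (p.1 0 + p.2.1) (p.1 1) - min (p.1 0 + p.2.1) (p.1 1) then (1 : ℝ) else 0| ≤ 1 :=
    fun p => by split_ifs <;> norm_num
  rw [covariance_eq_sub (MemLp.of_bound mA.aestronglyMeasurable 1 (ae_of_all _ bA))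
    (MemLp.of_bound mB.aestronglyMeasurable 1 (ae_of_all _ bB)),
    integral_stat' hπ mA bA (fun _ => rfl), integral_stat' hπ mB bB (fun _ => rfl)] at key
  have e := integral_stat' hπ (mA.mul mB) (fun p => by
    rw [Pi.mul_apply, abs_mul]
    exact mul_le_one₀ (bA p) (abs_nonneg _) (bB p)) (fun _ => rfl)
  rw [e] at key
  simp only [Pi.mul_apply] at key
  norm_num at key

end Pool.Agent.Results.MP_d464c7_pr.NotAssoc
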